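import Pool.Agent.G02.StmtsS

set_option autoImplicit false

namespace Pool.Agent.G02.H76

open Polynomial Pool.Agent.NJ Pool.Agent.G02

theorem deg_of_assoc {x d : ℚ[X]} (h : Associated (d ^ 2) x) : x.natDegree = 2 * d.natDegree := by
  rw [← natDegree_pow]
  exact (natDegree_eq_of_degree_eq (degree_eq_degree_of_associated h)).symm

theorem mul_nsq {x y : ℚ[X]} (h : Lin x y) (s : ℚ[X]) (hs : x * y = s ^ 2) : False := by
  obtain ⟨d, hd⟩ := exists_associated_pow_of_mul_eq_pow' h.cop hs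
  obtain ⟨d', hd'⟩ := exists_associated_pow_of_mul_eq_pow' h.cop.symm (by rw [mul_comm]; exact hs)
  have h1 := deg_of_assoc hd
  have h2 := deg_of_assoc hd'
  have h3 := h.dx
  have h4 := h.dy
  exact h.nc ⟨by omega, by omega⟩

theorem nsb : NsbStmt := by
  intro a b x y k m i j T
  have hinj : Function.Injective (algebraMap ℚ[X] (RatFunc ℚ)) :=
    IsFractionRing.injective ℚ[X] (RatFunc ℚ)
  have hx : algebraMap ℚ[X] (RatFunc ℚ) x ≠ 0 := by
    rw [Ne, map_eq_zero_iff _ hinj]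
    exact T.lin.x0
  have hy : algebraMap ℚ[X] (RatFunc ℚ) y ≠ 0 := by
    rw [Ne, map_eq_zero_iff _ hinj]
    exact T.lin.y0
  have hl : lam x y ≠ 0 := div_ne_zero hx hy
  have hl4 : lam x y - 4 ≠ 0 := by
    intro h0
    have h1 : algebraMap ℚ[X] (RatFunc ℚ) x = algebraMap ℚ[X] (RatFunc ℚ) (4 * y) := by
      have h2 : lam x y = 4 := sub_eq_zero.mp h0
      rw [lam, div_eq_iff hy] at h2
      rw [h2, map_mul]
      congr 1
      exact (map_ofNat _ 4).symm
    have h2 : x = 4 * y := hinj h1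
    have h3 : IsUnit y := by
      have h4 := T.lin.cop
      rw [h2] at h4
      exact isCoprime_self.mp (h4.of_mul_left_right)
    have h5 : y.natDegree = 0 := natDegree_eq_zero_of_isUnit h3
    refine T.lin.nc ⟨?_, h5⟩
    rw [h2]
    have h6 : (4 * y : ℚ[X]).natDegree ≤ (4 : ℚ[X]).natDegree + y.natDegree := natDegree_mul_le
    have h7 : (4 : ℚ[X]).natDegree = 0 := natDegree_ofNat 4
    omega
  obtain ⟨D, hD⟩ : ∃ D, D = RatFunc.C k * m ^ 2 * lam x y ^ i * (lam x y - 4) ^ j := ⟨_, rfl⟩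
  have hk : (RatFunc.C k : RatFunc ℚ) ≠ 0 := by
    rw [Ne, map_eq_zero_iff _ (RingHom.injective _)]
    exact T.k0
  have hD0 : D ≠ 0 := by
    rw [hD]
    exact mul_ne_zero (mul_ne_zero (mul_ne_zero hk (pow_ne_zero _ T.m0)) (pow_ne_zero _ hl))
      (pow_ne_zero _ hl4)
  have ha := T.ha
  have hb := T.hb
  rw [← hD] at ha hb
  refine ⟨?_, ?_, ?_⟩
  · rintro rfl
    rw [map_zero] at hb
    exact mul_ne_zero (pow_ne_zero _ hD0) hl hb.symm
  · intro h0
    have h1 : algebraMap ℚ[X] (RatFunc ℚ) (a ^ 2 - 4 * b) = D ^ 2 * lam x y * (lam x y - 4) := by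
      rw [map_sub, map_mul, map_pow, ha, hb, map_ofNat]
      ring
    rw [h0, map_zero] at h1
    exact mul_ne_zero (mul_ne_zero (pow_ne_zero _ hD0) hl) hl4 h1.symm
  · rintro ⟨c, hc⟩
    rw [hc, map_mul] at hb
    have h1 : algebraMap ℚ[X] (RatFunc ℚ) (x * y) =
        (algebraMap ℚ[X] (RatFunc ℚ) c / D * algebraMap ℚ[X] (RatFunc ℚ) y) ^ 2 := by
      have h2 : lam x y = (algebraMap ℚ[X] (RatFunc ℚ) c / D) ^ 2 := by
        rw [div_pow, eq_div_iff (pow_ne_zero 2 hD0), sq (algebraMap ℚ[X] (RatFunc ℚ) c), hb]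
        ring
      have h3 : algebraMap ℚ[X] (RatFunc ℚ) x = lam x y * algebraMap ℚ[X] (RatFunc ℚ) y := by
        rw [lam, div_mul_cancel₀ _ hy]
      rw [map_mul, h3, h2]
      ring
    have h4 : IsIntegral ℚ[X] (algebraMap ℚ[X] (RatFunc ℚ) c / D * algebraMap ℚ[X] (RatFunc ℚ) y) := by
      refine IsIntegral.of_pow (n := 2) two_pos ?_
      rw [← h1]
      exact isIntegral_algebraMap
    obtain ⟨s, hs⟩ := IsIntegrallyClosed.isIntegral_iff.mp h4
    rw [← hs, ← map_pow] at h1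
    exact mul_nsq T.lin s (hinj h1)

end Pool.Agent.G02.H76
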