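import Pool.Agent.G02.Stmts

set_option autoImplicit false

namespace Pool.Agent.G02.H76

open Pool.Agent.NJ Pool.Agent.G02

theorem leg_two (p : ℕ) [Fact p.Prime] (h : p % 8 = 3) : legendreSym p 2 = -1 := by
  have hp2 : p ≠ 2 := by omega
  rw [legendreSym.at_two hp2, ZMod.χ₈_nat_eq_if_mod_eight]
  simp [h]
  omega

theorem ndvd_prime {l m : ℕ} (hl : l.Prime) (hm : m.Prime) (h : l ≠ m) : ¬ (l : ℤ) ∣ (m : ℤ) := by
  intro hd
  exact h ((Nat.prime_dvd_prime_iff_eq hl hm).mp (Int.natCast_dvd_natCast.mp hd))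

theorem ndvd_two {l : ℕ} (hl : l.Prime) (h : l ≠ 2) : ¬ (l : ℤ) ∣ (2 : ℤ) := by
  intro hd
  have h1 : l ∣ 2 := by exact_mod_cast hd
  exact h ((Nat.prime_dvd_prime_iff_eq hl Nat.prime_two).mp h1)

theorem ua1 (hSUA : SuaStmt) (hRLA : RlaStmt) (hLA : LaStmt) (hLB : LbStmt) (hREA : ReaStmt)
    (hSQF : NJ.SQFStmt) : Ua1Stmt := by
  intro k p q r hRA d M e N B Q hpd
  have fp : Fact p.Prime := ⟨hRA.pp⟩
  have fq : Fact q.Prime := ⟨hRA.pq⟩
  have fr : Fact r.Prime := ⟨hRA.pr⟩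
  obtain ⟨hr8, s, S⟩ := hRLA k p q r hRA
  have hp8 := hRA.mp
  have hq8 := hRA.mq
  have hrz := hRA.hr
  have hk0 : k ≠ 0 := hRA.sqf.ne_zero
  have hp0 : (0 : ℤ) < p := by exact_mod_cast hRA.pp.pos
  have hq0 : (0 : ℤ) < q := by exact_mod_cast hRA.pq.pos
  have hr0 : (0 : ℤ) < r := by exact_mod_cast hRA.pr.pos
  have hk2 : 0 < k ^ 2 := by positivity
  have hpZ : Prime (p : ℤ) := Nat.prime_iff_prime_int.1 hRA.pp
  have hrZ : Prime (r : ℤ) := Nat.prime_iff_prime_int.1 hRA.pr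
  have hdisc : (4 * k * (p : ℤ) ^ 2) ^ 2 - 4 * (8 * k ^ 2 * (p : ℤ) ^ 3 * q) =
      -(16 * k ^ 2 * (p : ℤ) ^ 3 * r) := by
    rw [hrz]; ring
  -- the sign
  have hdpos : 0 < d := by
    rcases lt_trichotomy d 0 with h | h | h
    · exfalso
      have h1 := (hREA _ _ d M e N B Q h (by positivity)).2
      rw [hdisc] at h1
      have h2 : 0 < 16 * k ^ 2 * (p : ℤ) ^ 3 * r := by positivity
      linarith
    · exact absurd h Q.sqf.ne_zero
    · exact h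
  -- the prime `p`
  have hp1 : legendreSym p d = 1 := by
    refine hLA _ _ d M e N B Q p S.p2 hpd (Or.inr ⟨⟨4 * k, by ring⟩, ⟨8 * k ^ 2 * q, by ring⟩, ?_⟩)
    rintro ⟨c, hc⟩
    have h1 : (p : ℤ) ^ 3 * (2 ^ 3 * (k ^ 2 * q)) = (p : ℤ) ^ 3 * (p * c) := by
      linear_combination hc
    have h2 := mul_left_cancel₀ (pow_ne_zero 3 hp0.ne') h1
    have h3 : (p : ℤ) ∣ 2 ^ 3 * (k ^ 2 * q) := ⟨c, h2⟩
    rcases hpZ.dvd_or_dvd h3 with h4 | h4
    · exact ndvd_two hRA.pp S.p2 (hpZ.dvd_of_dvd_pow h4)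
    · rcases hpZ.dvd_or_dvd h4 with h5 | h5
      · exact S.kp (hpZ.dvd_of_dvd_pow h5)
      · exact ndvd_prime hRA.pp hRA.pq S.npq h5
  -- the prime `r`
  have hr1 : legendreSym r d = 1 := by
    refine hLB _ _ d M e N B Q r S.r2 ?_ ?_ ?_
    · intro h
      have h0 : (r : ℤ) ∣ 2 ^ 3 * (k ^ 2 * ((p : ℤ) ^ 3 * q)) := by
        obtain ⟨c, hc⟩ := h
        exact ⟨c, by linear_combination hc⟩
      rcases hrZ.dvd_or_dvd h0 with h4 | h4
      · exact ndvd_two hRA.pr S.r2 (hrZ.dvd_of_dvd_pow h4)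
      · rcases hrZ.dvd_or_dvd h4 with h5 | h5
        · exact S.kr (hrZ.dvd_of_dvd_pow h5)
        · rcases hrZ.dvd_or_dvd h5 with h6 | h6
          · exact ndvd_prime hRA.pr hRA.pp S.npr.symm (hrZ.dvd_of_dvd_pow h6)
          · exact ndvd_prime hRA.pr hRA.pq S.nqr.symm h6
    · rw [hdisc]
      exact ⟨-(16 * k ^ 2 * (p : ℤ) ^ 3), by ring⟩
    · rw [hdisc]
      rintro ⟨c, hc⟩
      have h1 : (r : ℤ) * (2 ^ 4 * (k ^ 2 * (p : ℤ) ^ 3)) = (r : ℤ) * (r * (-c)) := by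
        linear_combination -hc
      have h2 := mul_left_cancel₀ hr0.ne' h1
      have h3 : (r : ℤ) ∣ 2 ^ 4 * (k ^ 2 * (p : ℤ) ^ 3) := ⟨-c, h2⟩
      rcases hrZ.dvd_or_dvd h3 with h4 | h4
      · exact ndvd_two hRA.pr S.r2 (hrZ.dvd_of_dvd_pow h4)
      · rcases hrZ.dvd_or_dvd h4 with h5 | h5
        · exact S.kr (hrZ.dvd_of_dvd_pow h5)
        · exact ndvd_prime hRA.pr hRA.pp S.npr.symm (hrZ.dvd_of_dvd_pow h5)
  -- the support
  have hsup : ∀ l : ℕ, l.Prime → (l : ℤ) ∣ d → l = 2 ∨ l = q := by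
    intro l hl hd
    rcases ((hSUA k p q r hRA d M e N B).2.2.1 Q) l hl hd with h | h | h | h
    · exact Or.inl h
    · rw [h] at hd
      exact absurd hd hpd
    · exact Or.inr h
    · exact Or.inl h
  obtain ⟨ε, hε, hd⟩ := (hSQF d q r Q.sqf hRA.pq hRA.pr S.q2 S.r2 S.nqr).1 hsup
  have hε1 : ε = 1 := by
    rcases hε with h | h
    · exact h
    · exfalso
      subst h
      rcases hd with h | h | h | h <;> nlinarith
  subst hε1
  have hs := S.one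
  rcases hd with h | h | h | h
  · exact h
  · exfalso
    rw [h, one_mul, leg_two p hp8] at hp1
    norm_num at hp1
  · exfalso
    rw [h, one_mul, S.hpQ] at hp1
    rw [h, one_mul, S.hrQ, hp1] at hr1
    norm_num at hr1
  · exfalso
    rw [h, one_mul, legendreSym.mul, leg_two p hp8, S.hpQ] at hp1
    rw [h, one_mul, legendreSym.mul, leg_two r hr8, S.hrQ] at hr1
    linarith

end Pool.Agent.G02.H76
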